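import Mathlib

/-!
# Local uniformization for every defect, section 3: the polynomial part

* `ufd_root`: in a factorial domain, `e ≠ 0`, `1 ≤ ρ`: there is `q ≠ 0` with `e ∣ q ^ ρ` and
  `e ∣ g ^ ρ → q ∣ g`.
* `LT k D s`: polynomials of degree `< s` in `D` variables; `ND D s` is its dimension.
* `count`: if for every `g` of degree `< s` in the kernel of a linear map `L` the lowest
  homogeneous component `g_e` satisfies `e₀ ∣ g_e ^ ρ`, `e₀` of degree `M`, then
  `ND D s ≤ rank L + ND D (s - ⌈M / ρ⌉)`.
-/

set_option autoImplicit false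

open MvPolynomial Module

namespace Pool.Agent.ALL3

/-! ## Roots of divisibility -/

theorem ufd_root {R : Type*} [CommRing R] [IsDomain R] [UniqueFactorizationMonoid R] {ρ : ℕ}
    (hρ : 1 ≤ ρ) (e : R) (he : e ≠ 0) :
    ∃ q : R, q ≠ 0 ∧ e ∣ q ^ ρ ∧ ∀ g, e ∣ g ^ ρ → q ∣ g := by
  revert he
  refine UniqueFactorizationMonoid.induction_on_coprime e ?_ ?_ ?_ ?_
  · intro h
    exact absurd rfl h
  · intro x hx _
    exact ⟨1, one_ne_zero, hx.dvd, fun g _ => one_dvd g⟩
  · intro p i hp _
    refine ⟨p ^ ((i + ρ - 1) / ρ), pow_ne_zero _ hp.ne_zero, ?_, ?_⟩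
    · rw [← pow_mul]
      refine pow_dvd_pow _ ?_
      have h1 := Nat.div_add_mod (i + ρ - 1) ρ
      have h2 := Nat.mod_lt (i + ρ - 1) (show 0 < ρ from hρ)
      rw [mul_comm]
      omega
    · intro g hg
      by_cases hg0 : g = 0
      · rw [hg0]
        exact dvd_zero _
      obtain ⟨n, c, hpc, hgc⟩ := WfDvdMonoid.max_power_factor hg0 hp.irreducible
      have h1 : i ≤ n * ρ := by
        by_contra hlt
        push Not at hlt
        have h2 : p ^ (n * ρ + 1) ∣ g ^ ρ := (pow_dvd_pow _ (by omega)).trans hg
        rw [hgc, mul_pow, ← pow_mul, pow_succ] at h2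
        have h3 : p ∣ c ^ ρ := (mul_dvd_mul_iff_left (pow_ne_zero _ hp.ne_zero)).1 h2
        exact hpc (hp.dvd_of_dvd_pow h3)
      have h2 : (i + ρ - 1) / ρ ≤ n := by
        rw [Nat.div_le_iff_le_mul_add_pred (by omega)]
        rw [mul_comm] at h1
        omega
      rw [hgc]
      exact (pow_dvd_pow _ h2).trans (dvd_mul_right _ _)
  · intro x y hxy hx hy h0
    obtain ⟨qx, hqx0, hx1, hx2⟩ := hx (left_ne_zero_of_mul h0)
    obtain ⟨qy, hqy0, hy1, hy2⟩ := hy (right_ne_zero_of_mul h0)
    refine ⟨qx * qy, mul_ne_zero hqx0 hqy0, ?_, ?_⟩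
    · rw [mul_pow]
      exact mul_dvd_mul hx1 hy1
    · intro g hg
      have h1 : qx ∣ x := hx2 x (dvd_pow_self x (by omega))
      have h2 : qy ∣ y := hy2 y (dvd_pow_self y (by omega))
      have h3 : IsRelPrime qx qy := (hxy.of_dvd_left h1).of_dvd_right h2
      exact h3.mul_dvd (hx2 g ((dvd_mul_right x y).trans hg)) (hy2 g ((dvd_mul_left y x).trans hg))

/-! ## Polynomials of bounded degree -/

section Count

variable (k : Type*) [Field k]

/-- polynomials of degree `< s` -/
noncomputable def LT (D s : ℕ) : Submodule k (MvPolynomial (Fin D) k) :=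
  restrictSupport k {m | m.degree < s}

/-- the number of monomials of degree `< s` in `D` variables -/
noncomputable def ND (D s : ℕ) : ℕ := Nat.card {m : Fin D →₀ ℕ // m.degree < s}

variable {k}

theorem mem_LT {D s : ℕ} {g : MvPolynomial (Fin D) k} :
    g ∈ LT k D s ↔ ∀ m, s ≤ m.degree → coeff m g = 0 := by
  unfold LT
  rw [mem_restrictSupport_iff]
  constructor
  · intro h m hm
    by_contra h0
    have := h (show m ∈ (g.support : Set _) by simpa [MvPolynomial.mem_support_iff] using h0)
    simp only [Set.mem_ofPred_eq] at this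
    omega
  · intro h m hm
    simp only [Set.mem_ofPred_eq]
    by_contra h0
    push Not at h0
    have h1 : coeff m g ≠ 0 := by simpa [MvPolynomial.mem_support_iff] using hm
    exact h1 (h m h0)

theorem set_eq (D s : ℕ) : {m : Fin D →₀ ℕ | m.degree < s} =
    (((Finset.range s).biUnion
      fun j => Finset.finsuppAntidiag (Finset.univ : Finset (Fin D)) j : Finset (Fin D →₀ ℕ)) :
      Set (Fin D →₀ ℕ)) := by
  ext m
  simp only [Finset.coe_biUnion, Set.mem_iUnion, Finset.mem_coe, Finset.mem_range,
    Finset.mem_finsuppAntidiag, Set.mem_ofPred_eq]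
  constructor
  · intro hm
    exact ⟨m.degree, hm, (Finsupp.degree_eq_sum m).symm, Finset.subset_univ _⟩
  · rintro ⟨j, hj, h1, -⟩
    rw [Finsupp.degree_eq_sum, h1]
    exact hj

theorem finite_lt (D s : ℕ) : Finite {m : Fin D →₀ ℕ // m.degree < s} := by
  have : {m : Fin D →₀ ℕ | m.degree < s}.Finite := by
    rw [set_eq]
    exact Finset.finite_toSet _
  exact this

theorem ND_sum (D s : ℕ) : ND D s = ∑ j ∈ Finset.range s, D.multichoose j := by
  classical
  have h1 : ND D s = Set.ncard {m : Fin D →₀ ℕ | m.degree < s} := rfl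
  rw [h1, set_eq, Set.ncard_coe_finset, Finset.card_biUnion]
  · refine Finset.sum_congr rfl fun j _ => ?_
    rw [Finset.card_finsuppAntidiag_nat_eq_multichoose, Finset.card_univ, Fintype.card_fin]
  · intro i _ j _ hij
    rw [Function.onFun, Finset.disjoint_left]
    intro m hm hm'
    rw [Finset.mem_finsuppAntidiag] at hm hm'
    exact hij (hm.1.symm.trans hm'.1)

theorem ND_eq (D s : ℕ) (hs : 1 ≤ s) : ND D s = (s - 1 + D).choose D := by
  obtain ⟨n, rfl⟩ : ∃ n, s = n + 1 := ⟨s - 1, by omega⟩
  rw [ND_sum, Nat.sum_range_multichoose]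
  simp

theorem ND_zero (D : ℕ) : ND D 0 = 0 := by
  rw [ND_sum]
  simp

theorem ND_mono (D : ℕ) : Monotone (ND D) := by
  intro a b hab
  rw [ND_sum, ND_sum]
  exact Finset.sum_le_sum_of_subset (Finset.range_mono hab)

instance (D s : ℕ) : Module.Finite k (LT k D s) := by
  have : Finite ({m : Fin D →₀ ℕ | m.degree < s} : Set (Fin D →₀ ℕ)) := finite_lt D s
  exact Module.Finite.of_basis (basisRestrictSupport k {m : Fin D →₀ ℕ | m.degree < s})

theorem finrank_LT (D s : ℕ) : finrank k (LT k D s) = ND D s := by
  exact finrank_eq_nat_card_basis (basisRestrictSupport k {m : Fin D →₀ ℕ | m.degree < s})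

/-- the forms of degree `j` -/
theorem finrank_form (D j : ℕ) :
    finrank k (homogeneousSubmodule (Fin D) k j) = D.multichoose j := by
  classical
  have h1 : homogeneousSubmodule (Fin D) k j =
      restrictSupport k ((Finset.finsuppAntidiag (Finset.univ : Finset (Fin D)) j :
        Finset (Fin D →₀ ℕ)) : Set (Fin D →₀ ℕ)) := by
    ext g
    rw [mem_homogeneousSubmodule, mem_restrictSupport_iff]
    constructor
    · intro h m hm
      have h2 : coeff m g ≠ 0 := by simpa [MvPolynomial.mem_support_iff] using hm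
      rw [Finset.mem_coe, Finset.mem_finsuppAntidiag]
      refine ⟨?_, Finset.subset_univ _⟩
      rw [← Finsupp.degree_eq_sum]
      by_contra h3
      exact h2 (h.coeff_eq_zero h3)
    · intro h m hm
      have h2 : m ∈ (g.support : Set _) := by simpa [MvPolynomial.mem_support_iff] using hm
      have h3 := h h2
      rw [Finset.mem_coe, Finset.mem_finsuppAntidiag] at h3
      have h4 : m.degree = j := by rw [Finsupp.degree_eq_sum, h3.1]
      rw [← h4, Finsupp.degree_eq_weight_one]
      rfl
  rw [h1, finrank_eq_nat_card_basis (basisRestrictSupport k _)]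
  rw [Nat.card_coe_set_eq, Set.ncard_coe_finset, Finset.card_finsuppAntidiag_nat_eq_multichoose,
    Finset.card_univ, Fintype.card_fin]

instance (D j : ℕ) : Module.Finite k (homogeneousSubmodule (Fin D) k j) := by
  refine Module.Finite.of_injective (Submodule.inclusion (show homogeneousSubmodule (Fin D) k j ≤
    LT k D (j + 1) from ?_)) (Submodule.inclusion_injective _)
  intro g hg
  rw [mem_LT]
  intro m hm
  rw [mem_homogeneousSubmodule] at hg
  exact hg.coeff_eq_zero (by omega)

/-! ## The filtration by the order -/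

/-- order `≥ e` -/
def GE (k : Type*) [Field k] (D e : ℕ) : Submodule k (MvPolynomial (Fin D) k) where
  carrier := {g | ∀ j < e, homogeneousComponent j g = 0}
  add_mem' := by
    intro a b ha hb j hj
    rw [map_add, ha j hj, hb j hj, add_zero]
  zero_mem' := by
    intro j _
    rw [map_zero]
  smul_mem' := by
    intro c a ha j hj
    rw [map_smul, ha j hj, smul_zero]

theorem mem_GE {D e : ℕ} {g : MvPolynomial (Fin D) k} :
    g ∈ GE k D e ↔ ∀ j < e, homogeneousComponent j g = 0 := Iff.rfl

theorem coeff_of_GE {D e : ℕ} {g : MvPolynomial (Fin D) k} (hg : g ∈ GE k D e)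
    (m : Fin D →₀ ℕ) (hm : m.degree < e) : coeff m g = 0 := by
  have h := hg m.degree hm
  have h2 := coeff_homogeneousComponent m.degree g m
  rw [h, if_pos rfl] at h2
  rw [← h2, coeff_zero]

theorem rank_step {D : ℕ} (G : Submodule k (MvPolynomial (Fin D) k)) [Module.Finite k G]
    (e b : ℕ)
    (hb : finrank k ((G ⊓ GE k D e).map (homogeneousComponent e)) ≤ b) :
    finrank k (G ⊓ GE k D e : Submodule k _) ≤ finrank k (G ⊓ GE k D (e + 1) : Submodule k _) + b := by
  have : Module.Finite k (G ⊓ GE k D e : Submodule k _) :=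
    Module.Finite.of_injective (Submodule.inclusion inf_le_left) (Submodule.inclusion_injective _)
  have : Module.Finite k (G ⊓ GE k D (e + 1) : Submodule k _) :=
    Module.Finite.of_injective (Submodule.inclusion inf_le_left) (Submodule.inclusion_injective _)
  let f : (G ⊓ GE k D e : Submodule k _) →ₗ[k] MvPolynomial (Fin D) k :=
    (homogeneousComponent e).domRestrict _
  have h1 := LinearMap.finrank_range_add_finrank_ker f
  have h2 : LinearMap.range f = (G ⊓ GE k D e).map (homogeneousComponent e) := by
    rw [LinearMap.range_domRestrict]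
  rw [h2] at h1
  have h3 : finrank k (LinearMap.ker f) ≤ finrank k (G ⊓ GE k D (e + 1) : Submodule k _) := by
    rw [← Submodule.finrank_map_subtype_eq]
    refine Submodule.finrank_mono ?_
    rintro _ ⟨x, hx, rfl⟩
    refine ⟨x.2.1, ?_⟩
    intro j hj
    rcases Nat.lt_or_ge j e with h | h
    · exact x.2.2 j h
    · obtain rfl : j = e := by omega
      exact hx
  omega

theorem rank_filtration {D : ℕ} (G : Submodule k (MvPolynomial (Fin D) k)) [Module.Finite k G]
    (b : ℕ → ℕ) (hb : ∀ e, finrank k ((G ⊓ GE k D e).map (homogeneousComponent e)) ≤ b e) (s : ℕ) :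
    finrank k G ≤ finrank k (G ⊓ GE k D s : Submodule k _) + ∑ e ∈ Finset.range s, b e := by
  induction s with
  | zero =>
    have h : G ⊓ GE k D 0 = G := by
      refine inf_eq_left.2 ?_
      intro g _ j hj
      omega
    rw [h]
    simp
  | succ s ih =>
    rw [Finset.sum_range_succ]
    have := rank_step G s (b s) (hb s)
    omega

theorem LT_inf_GE (D s : ℕ) : LT k D s ⊓ GE k D s = ⊥ := by
  rw [eq_bot_iff]
  rintro g ⟨h1, h2⟩
  rw [Submodule.mem_bot]
  ext m
  rw [coeff_zero]
  rcases Nat.lt_or_ge m.degree s with h | h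
  · exact coeff_of_GE h2 m h
  · exact mem_LT.1 h1 m h

/-! ## Forms divisible by `q` -/

theorem top_ne_zero {D : ℕ} {h : MvPolynomial (Fin D) k} (h0 : h ≠ 0) :
    homogeneousComponent h.totalDegree h ≠ 0 := by
  intro h1
  have hs : h.support.Nonempty := MvPolynomial.support_nonempty.2 h0
  obtain ⟨m, hm, hmax⟩ := Finset.exists_max_image h.support (fun m => m.degree) hs
  have h2 : h.totalDegree = m.degree := by
    refine le_antisymm ?_ ?_
    · rw [totalDegree_eq]
      refine Finset.sup_le fun n hn => ?_
      have := hmax n hn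
      rw [Finsupp.card_toMultiset]
      rw [Finsupp.degree_eq_sum] at this
      rw [Finsupp.sum_fintype _ _ (fun _ => rfl)]
      exact this
    · have := le_totalDegree hm
      rw [Finsupp.sum_fintype _ _ (fun _ => rfl)] at this
      rw [Finsupp.degree_eq_sum]
      exact this
  have h3 := coeff_homogeneousComponent h.totalDegree h m
  rw [h1, if_pos h2.symm, coeff_zero] at h3
  exact (MvPolynomial.mem_support_iff.1 hm) h3.symm

/-- the forms of degree `e` divisible by `q` -/
theorem finrank_div {D : ℕ} {q : MvPolynomial (Fin D) k} (hq : q ≠ 0) (e : ℕ)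
    (E : Submodule k (MvPolynomial (Fin D) k))
    (hE : ∀ g ∈ E, g.IsHomogeneous e ∧ q ∣ g) :
    finrank k E ≤ if q.totalDegree ≤ e then D.multichoose (e - q.totalDegree) else 0 := by
  set M : Submodule k (MvPolynomial (Fin D) k) := E.comap (LinearMap.mulLeft k q) with hM
  have key : ∀ h ∈ M, h ≠ 0 → e = q.totalDegree + h.totalDegree := by
    intro h hh h0
    have h1 := (hE _ hh).1
    rw [LinearMap.mulLeft_apply] at h1
    have h2 := h1.totalDegree (mul_ne_zero hq h0)
    rw [totalDegree_mul_of_isDomain hq h0] at h2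
    exact h2.symm
  have hmap : E = M.map (LinearMap.mulLeft k q) := by
    ext g
    constructor
    · intro hg
      obtain ⟨h, rfl⟩ := (hE g hg).2
      exact ⟨h, hg, rfl⟩
    · rintro ⟨h, hh, rfl⟩
      exact hh
  have hinj : Function.Injective (LinearMap.mulLeft k q) := by
    intro a b hab
    exact mul_left_cancel₀ hq hab
  have hfr : finrank k E = finrank k M := by
    rw [hmap]
    exact (LinearEquiv.finrank_eq (Submodule.equivMapOfInjective _ hinj M)).symm
  rw [hfr]
  split_ifs with hd
  · rw [← finrank_form (k := k)]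
    let f : M →ₗ[k] homogeneousSubmodule (Fin D) k (e - q.totalDegree) :=
      LinearMap.codRestrict _ ((homogeneousComponent (e - q.totalDegree)).domRestrict M)
        (fun x => homogeneousComponent_mem (e - q.totalDegree) x.1)
    refine LinearMap.finrank_le_finrank_of_injective (f := f) ?_
    rw [injective_iff_map_eq_zero]
    intro x hx
    by_contra h0
    have h1 : x.1 ≠ 0 := fun h => h0 (Subtype.ext h)
    have h2 := key x.1 x.2 h1
    have h3 : homogeneousComponent (e - q.totalDegree) x.1 = 0 := congrArg Subtype.val hx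
    rw [h2, Nat.add_sub_cancel_left] at h3
    exact top_ne_zero h1 h3
  · have : M = ⊥ := by
      rw [eq_bot_iff]
      intro h hh
      rw [Submodule.mem_bot]
      by_contra h0
      have := key h hh h0
      omega
    rw [this, finrank_bot]

theorem sum_shift (D s d : ℕ) :
    (∑ e ∈ Finset.range s, if d ≤ e then D.multichoose (e - d) else 0) = ND D (s - d) := by
  rw [ND_sum, ← Finset.sum_filter]
  refine Finset.sum_bij' (fun e _ => e - d) (fun j _ => j + d) ?_ ?_ ?_ ?_ ?_
  · intro e he
    rw [Finset.mem_filter, Finset.mem_range] at he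
    rw [Finset.mem_range]
    omega
  · intro j hj
    rw [Finset.mem_range] at hj
    rw [Finset.mem_filter, Finset.mem_range]
    omega
  · intro e he
    rw [Finset.mem_filter, Finset.mem_range] at he
    omega
  · intro j hj
    omega
  · intro e he
    rfl

/-- a space of polynomials of degree `< s` with lowest forms divisible by `q` -/
theorem finrank_low {D s : ℕ} {q : MvPolynomial (Fin D) k} (hq : q ≠ 0)
    (G : Submodule k (MvPolynomial (Fin D) k)) (hG : G ≤ LT k D s)
    (hlow : ∀ g ∈ G, ∀ e, (∀ j < e, homogeneousComponent j g = 0) →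
      q ∣ homogeneousComponent e g) :
    finrank k G ≤ ND D (s - q.totalDegree) := by
  have : Module.Finite k G :=
    Module.Finite.of_injective (Submodule.inclusion hG) (Submodule.inclusion_injective _)
  have h1 := rank_filtration G
    (fun e => if q.totalDegree ≤ e then D.multichoose (e - q.totalDegree) else 0) ?_ s
  · rw [sum_shift] at h1
    have h2 : (G ⊓ GE k D s : Submodule k _) = ⊥ := by
      rw [eq_bot_iff, ← LT_inf_GE (k := k) D s]
      exact inf_le_inf_right _ hG
    rw [h2, finrank_bot, zero_add] at h1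
    exact h1
  · intro e
    refine finrank_div hq e _ ?_
    rintro _ ⟨g, hg, rfl⟩
    exact ⟨homogeneousComponent_isHomogeneous e g, hlow g hg.1 e hg.2⟩

/-- **section 3, counting**: if `e₀` (of degree `≥ M`) divides the `ρ`-th power of the lowest form
of every polynomial of degree `< s` in the kernel of `L`, the rank of `L` is at least
`ND D s - ND D (s - ⌈M / ρ⌉)`. -/
theorem count {D s ρ M : ℕ} (hρ : 1 ≤ ρ) {e₀ : MvPolynomial (Fin D) k} (he : e₀ ≠ 0)
    (hM : M ≤ e₀.totalDegree) {U : Type*} [AddCommGroup U] [Module k U]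
    (L : LT k D s →ₗ[k] U)
    (hL : ∀ g : LT k D s, L g = 0 → ∀ e, (∀ j < e, homogeneousComponent j g.1 = 0) →
      e₀ ∣ (homogeneousComponent e g.1) ^ ρ) :
    ND D s ≤ finrank k (LinearMap.range L) + ND D (s - (M + ρ - 1) / ρ) := by
  obtain ⟨q, hq0, hq1, hq2⟩ := ufd_root hρ e₀ he
  have h1 := LinearMap.finrank_range_add_finrank_ker L
  rw [finrank_LT] at h1
  have h2 : finrank k (LinearMap.ker L) ≤ ND D (s - q.totalDegree) := by
    rw [← Submodule.finrank_map_subtype_eq]
    refine finrank_low hq0 _ (Submodule.map_subtype_le _ _) ?_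
    rintro _ ⟨g, hg, rfl⟩ e hge
    exact hq2 _ (hL g hg e hge)
  have h3 : M ≤ ρ * q.totalDegree := by
    obtain ⟨c, hc⟩ := hq1
    have hc0 : c ≠ 0 := by
      rintro rfl
      rw [mul_zero] at hc
      exact pow_ne_zero _ hq0 hc
    have h4 := totalDegree_pow q ρ
    rw [hc, totalDegree_mul_of_isDomain he hc0] at h4
    omega
  have h4 : (M + ρ - 1) / ρ ≤ q.totalDegree := by
    rw [Nat.div_le_iff_le_mul_add_pred (by omega)]
    omega
  have h5 : ND D (s - q.totalDegree) ≤ ND D (s - (M + ρ - 1) / ρ) := ND_mono D (by omega)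
  omega

end Count

end Pool.Agent.ALL3
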